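import Mathlib
import Pool.Agent.Lib_helper32.FL.Pt
import Pool.Agent.Lib_helper90.FL.FL1
import Pool.Agent.Lib_helper19.GC2.Level

set_option autoImplicit false

/-!
FL3: the flag, by induction on the dimension.
-/

namespace Pool.Agent.KAL
open Finset Module

universe u v

section fl
variable {P : Type u} [DecidableEq P]

/-- all but finitely many `t` are good -/
theorem fl3_generic {M : Type*} [AddCommGroup M] [Module ℝ M] (S : Submodule ℝ M) (u g : M)
    (hu : u ∉ S) : {t : ℝ | u + t • g ∈ S}.Subsingleton := by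
  intro t ht s hs
  by_contra hne
  apply hu
  have h1 : (t - s) • g ∈ S := by
    have := S.sub_mem ht hs
    have h2 : u + t • g - (u + s • g) = (t - s) • g := by
      rw [sub_smul]
      abel
    rwa [h2] at this
  have h3 : g ∈ S := (S.smul_mem_iff (sub_ne_zero.2 hne)).1 h1
  have h4 := S.sub_mem ht (S.smul_mem t h3)
  rwa [add_sub_cancel_right] at h4

theorem fl3_span {W : Type v} [AddCommGroup W] [Module ℝ W] (p : P → Dual ℝ W) (T : Finset P)
    (f : Dual ℝ W) (h : f ∈ Submodule.span ℝ (p '' (T : Set P))) :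
    ∃ b : P → ℝ, ∑ x ∈ T, b x • p x = f := by
  classical
  rw [Submodule.mem_span_image_finset_iff_exists_fun] at h
  obtain ⟨c, hc⟩ := h
  obtain ⟨b, hb⟩ : ∃ b : P → ℝ, ∀ i : T, b i = c i :=
    ⟨fun x => if hx : x ∈ T then c ⟨x, hx⟩ else 0, fun i => by simp⟩
  refine ⟨b, ?_⟩
  rw [← hc, ← Finset.sum_coe_sort]
  exact Finset.sum_congr rfl fun i _ => by rw [hb i]

theorem flag_aux (R : Finset P) (k : ℕ) (n : ℕ) : ∀ (W : Type v) [AddCommGroup W] [Module ℝ W]
    [FiniteDimensional ℝ W] (p : P → Dual ℝ W), GPos p R → finrank ℝ W = n + 1 → n + 1 ≤ k →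
    ∃ g : Dual ℝ W,
      (∀ T ⊆ R, T.card < finrank ℝ W → ∀ (a : ℝ) (b : P → ℝ),
        a • g + ∑ x ∈ T, b x • p x = 0 → a = 0) ∧
      Bld k (fun j => (R.card + 1) / (j + 2)) R
        (fun A => ∃ l : W, 0 < g l ∧ ∀ x ∈ A, 0 < p x l) := by
  induction n with
  | zero =>
    intro W _ _ _ p hgp hW hk
    obtain ⟨g, hg1, hg2⟩ := centre_pr p R hgp (by omega)
    refine ⟨g, hg1, ?_⟩
    have hg0 : g ≠ 0 := by
      intro h0
      have := hg1 ∅ (empty_subset R) (by rw [card_empty, hW]; omega) 1 0 (by simp [h0])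
      exact one_ne_zero this
    obtain ⟨l1, hl1⟩ : ∃ l : W, g l ≠ 0 := by
      by_contra hcon
      push Not at hcon
      exact hg0 (LinearMap.ext hcon)
    obtain ⟨l0, hl0⟩ : ∃ l : W, g l = 1 := ⟨(g l1)⁻¹ • l1, by
      rw [map_smul, smul_eq_mul, inv_mul_cancel₀ hl1]⟩
    have hl0' : l0 ≠ 0 := by
      intro h0
      rw [h0, map_zero] at hl0
      exact zero_ne_one hl0
    have hall : ∀ l : W, l = g l • l0 := by
      intro l
      obtain ⟨c, hc⟩ := (finrank_eq_one_iff_of_nonzero' l0 hl0').1 hW l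
      have : g l = c := by
        rw [← hc, map_smul, hl0, smul_eq_mul, mul_one]
      rw [this, hc]
    obtain ⟨ε, hε, hd⟩ := hg2 0
    have hd0 := hd 0 (by simpa using hε) l0 (by
      rw [zero_smul, add_zero, hl0]
      exact one_pos)
    rw [hW] at hd0
    have hB : Bld k (fun j => (R.card + 1) / (j + 2)) R
        (fun A => A ⊆ R.filter (fun x => 0 < p x l0)) :=
      Bld.base _ (filter_subset _ _) (by simpa using hd0)
    refine Bld.congr _ _ hB ?_ ?_
    · rintro A B hAB ⟨l, hl, hB⟩
      exact ⟨l, hl, fun x hx => hB x (hAB hx)⟩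
    · intro A hA
      constructor
      · intro hA'
        refine ⟨l0, by rw [hl0]; exact one_pos, fun x hx => ?_⟩
        exact (mem_filter.1 (hA' hx)).2
      · rintro ⟨l, hl, hAl⟩ x hx
        rw [mem_filter]
        refine ⟨hA hx, ?_⟩
        have h1 := hAl x hx
        rw [hall l, map_smul, smul_eq_mul] at h1
        exact (pos_iff_pos_of_mul_pos h1).1 hl
  | succ n ih =>
    intro W _ _ _ p hgp hW hk
    obtain ⟨h, hh1, hh2⟩ := centre_pr p R hgp (by omega)
    have hh0 : h ≠ 0 := by
      intro h0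
      have := hh1 ∅ (empty_subset R) (by rw [card_empty, hW]; omega) 1 0 (by simp [h0])
      exact one_ne_zero this
    have hker : finrank ℝ (LinearMap.ker h) = n + 1 := by
      have := Module.Dual.finrank_ker_add_one_of_ne_zero hh0
      omega
    obtain ⟨p', hp'⟩ : ∃ p' : P → Dual ℝ (LinearMap.ker h),
        ∀ x, p' x = (p x).comp (LinearMap.ker h).subtype := ⟨_, fun _ => rfl⟩
    -- a functional which vanishes on the kernel of `h` is a multiple of `h`
    have hmul : ∀ f : Dual ℝ W, (∀ l, h l = 0 → f l = 0) → ∃ a : ℝ, f = a • h := by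
      intro f hf
      obtain ⟨l1, hl1⟩ : ∃ l : W, h l ≠ 0 := by
        by_contra hcon
        push Not at hcon
        exact hh0 (LinearMap.ext hcon)
      refine ⟨f l1 / h l1, ?_⟩
      ext l
      have h1 : h (l - (h l / h l1) • l1) = 0 := by
        rw [map_sub, map_smul, smul_eq_mul, div_mul_cancel₀ _ hl1, sub_self]
      have h2 := hf _ h1
      rw [map_sub, map_smul, smul_eq_mul] at h2
      rw [LinearMap.smul_apply, smul_eq_mul]
      have h3 : f l = h l / h l1 * f l1 := by linarith
      rw [h3]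
      field_simp
    have hgp' : GPos p' R := by
      intro T hT hc b hb
      rw [Subspace.dual_finrank_eq, hker] at hc
      obtain ⟨a, ha⟩ := hmul (∑ x ∈ T, b x • p x) (by
        intro l hl
        have h1 := LinearMap.congr_fun hb ⟨l, LinearMap.mem_ker.2 hl⟩
        rw [LinearMap.sum_apply, LinearMap.zero_apply] at h1
        rw [LinearMap.sum_apply, ← h1]
        refine Finset.sum_congr rfl fun x _ => ?_
        rw [hp' x]
        rfl)
      have ha0 : -a = 0 := hh1 T hT (by omega) (-a) b (by rw [ha]; module)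
      have ha0' : a = 0 := by linarith
      rw [ha0', zero_smul] at ha
      exact hgp T hT (by rw [Subspace.dual_finrank_eq, hW]; omega) b ha
    obtain ⟨g', hg'1, hg'2⟩ := ih (LinearMap.ker h) p' hgp' hker (by omega)
    obtain ⟨g0, hg0⟩ := g'.exists_extend
    have hg0' : ∀ l : LinearMap.ker h, g0 l = g' l := fun l => LinearMap.congr_fun hg0 l
    obtain ⟨ε, hε, hd⟩ := hh2 g0
    -- the bad values of `t`
    obtain ⟨t, ht0, htε, htg⟩ : ∃ t : ℝ, 0 < t ∧ t < ε ∧ ∀ T ⊆ R, T.card < finrank ℝ W →
        h + t • g0 ∉ Submodule.span ℝ (p '' (T : Set P)) := by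
      have hfin : (⋃ T ∈ R.powerset.filter (fun T => T.card < finrank ℝ W),
          {t : ℝ | h + t • g0 ∈ Submodule.span ℝ (p '' (T : Set P))}).Finite := by
        refine Set.Finite.biUnion (Finset.finite_toSet _) fun T hT => ?_
        rw [Finset.mem_coe, mem_filter, mem_powerset] at hT
        refine (fl3_generic _ h g0 ?_).finite
        intro hmem
        obtain ⟨b, hb⟩ := fl3_span p T h hmem
        have := hh1 T hT.1 hT.2 (-1) b (by rw [hb]; module)
        norm_num at this
      obtain ⟨t, ht, htn⟩ := (Set.Ioo_infinite hε).exists_notMem_finite hfin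
      refine ⟨t, ht.1, ht.2, fun T hT hTc hmem => htn ?_⟩
      rw [Set.mem_iUnion₂]
      exact ⟨T, mem_filter.2 ⟨mem_powerset.2 hT, hTc⟩, hmem⟩
    have hg : ∀ T ⊆ R, T.card < finrank ℝ W → ∀ (a : ℝ) (b : P → ℝ),
        a • (h + t • g0) + ∑ x ∈ T, b x • p x = 0 → a = 0 := by
      intro T hT hTc a b hab
      by_contra ha
      apply htg T hT hTc
      have h1 : h + t • g0 = (-a⁻¹) • ∑ x ∈ T, b x • p x := by
        have h2 : a • (h + t • g0) = -∑ x ∈ T, b x • p x := eq_neg_of_add_eq_zero_left hab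
        calc h + t • g0 = a⁻¹ • (a • (h + t • g0)) := by rw [smul_smul, inv_mul_cancel₀ ha, one_smul]
          _ = (-a⁻¹) • ∑ x ∈ T, b x • p x := by rw [h2]; module
      rw [h1]
      exact Submodule.smul_mem _ _ (Submodule.sum_mem _ fun x hx =>
        Submodule.smul_mem _ _ (Submodule.subset_span ⟨x, hx, rfl⟩))
    refine ⟨h + t • g0, hg, ?_⟩
    have hB : Bld k (fun j => (R.card + 1) / (j + 2)) R
        (fun A => ∃ l : W, h l = 0 ∧ 0 < (h + t • g0) l ∧ ∀ x ∈ A, 0 < p x l) := by
      refine Bld.congr _ _ hg'2 ?_ ?_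
      · rintro A B hAB ⟨l, hl, hl', hB⟩
        exact ⟨l, hl, hl', fun x hx => hB x (hAB hx)⟩
      · intro A hA
        constructor
        · rintro ⟨l, hl, hAl⟩
          refine ⟨l, LinearMap.mem_ker.1 l.2, ?_, fun x hx => ?_⟩
          · rw [LinearMap.add_apply, LinearMap.mem_ker.1 l.2, zero_add, LinearMap.smul_apply,
              smul_eq_mul, hg0']
            exact mul_pos ht0 hl
          · have := hAl x hx
            rw [hp' x] at this
            exact this
        · rintro ⟨l, hl, hl', hAl⟩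
          refine ⟨⟨l, LinearMap.mem_ker.2 hl⟩, ?_, fun x hx => ?_⟩
          · rw [LinearMap.add_apply, hl, zero_add, LinearMap.smul_apply, smul_eq_mul] at hl'
            rw [← hg0']
            exact (pos_iff_pos_of_mul_pos hl').1 ht0
          · rw [hp' x]
            exact hAl x hx
    refine level (r := n + 1) ⟨by omega, hW, ?_, ?_, ?_, ?_⟩ (by omega) ?_ hB
    · intro A hA hAc
      rw [Fintype.linearIndependent_iff]
      intro b hb i
      classical
      obtain ⟨b', hb'⟩ : ∃ b' : P → ℝ, ∀ i : A, b' i = b i :=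
        ⟨fun x => if hx : x ∈ A then b ⟨x, hx⟩ else 0, fun i => by simp⟩
      rw [← hb' i]
      refine hgp A hA (by rw [Subspace.dual_finrank_eq, hW]; omega) b' ?_ i i.2
      rw [← hb, ← Finset.sum_coe_sort]
      exact Finset.sum_congr rfl fun i _ => by rw [hb' i]
    · intro A hA hAc hmem
      rw [Submodule.mem_span_insert] at hmem
      obtain ⟨a, z, hz, haz⟩ := hmem
      obtain ⟨b, hb⟩ := fl3_span p A z hz
      have h1 : a * t = 0 := by
        refine hg'1 A hA (by rw [hker]; omega) (a * t) b ?_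
        ext l
        have h2 := LinearMap.congr_fun haz l
        rw [LinearMap.mem_ker.1 l.2, LinearMap.add_apply, LinearMap.smul_apply,
          LinearMap.add_apply, LinearMap.mem_ker.1 l.2, zero_add, LinearMap.smul_apply, ← hb,
          LinearMap.sum_apply, hg0', smul_eq_mul, smul_eq_mul] at h2
        rw [LinearMap.add_apply, LinearMap.smul_apply, LinearMap.sum_apply, LinearMap.zero_apply,
          smul_eq_mul, mul_assoc, h2]
        congr 1
        refine Finset.sum_congr rfl fun x _ => ?_
        rw [hp' x]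
        rfl
      have ha : a = 0 := by
        rcases mul_eq_zero.1 h1 with h | h
        · exact h
        · exact absurd h ht0.ne'
      rw [ha, zero_smul, zero_add, ← hb] at haz
      have := hh1 A hA (by omega) (-1) b (by rw [← haz]; module)
      norm_num at this
    · intro A hA hAc
      exact htg A hA (by omega)
    · intro A hA hAc hmem
      obtain ⟨b, hb⟩ := fl3_span p A h hmem
      have := hh1 A hA (by omega) (-1) b (by rw [hb]; module)
      norm_num at this
    · intro v hv
      have := hd t (by rw [abs_of_pos ht0]; exact htε) v hv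
      rw [hW] at this
      exact this

/-- FL3: the flag -/
theorem flag {W : Type v} [AddCommGroup W] [Module ℝ W] [FiniteDimensional ℝ W]
    (p : P → Dual ℝ W) (R : Finset P) (hgp : GPos p R) (hW : 1 ≤ finrank ℝ W) (k : ℕ)
    (hk : finrank ℝ W ≤ k) :
    ∃ g : Dual ℝ W,
      (∀ T ⊆ R, T.card < finrank ℝ W → ∀ (a : ℝ) (b : P → ℝ),
        a • g + ∑ x ∈ T, b x • p x = 0 → a = 0) ∧
      Bld k (fun j => (R.card + 1) / (j + 2)) R
        (fun A => ∃ l : W, 0 < g l ∧ ∀ x ∈ A, 0 < p x l) :=
  flag_aux R k (finrank ℝ W - 1) W p hgp (by omega) (by omega)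

end fl

end Pool.Agent.KAL
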